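import Pool.Agent.Helper8_BRW.Stmts

/-! Module EXL of squad BRW: existence of the linear solution as the sum of the functions `hn`. -/

set_option autoImplicit false

open MeasureTheory Set Filter

namespace BRW.H13

/-- term by term differentiation on the half line -/
theorem hasDeriv_tsum_Ici (g g' : ℕ → ℝ → ℝ) (u : ℕ → ℝ) (T : ℝ) (hu : Summable u)
    (hg : ∀ n s, 0 ≤ s → HasDerivWithinAt (g n) (g' n s) (Ici 0) s)
    (hb : ∀ n s, 0 ≤ s → s ≤ T → ‖g' n s‖ ≤ u n) (h0 : Summable (fun n => g n 0))
    (t : ℝ) (ht : 0 ≤ t) (htT : t < T) :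
    HasDerivWithinAt (fun s => ∑' n, g n s) (∑' n, g' n t) (Ici 0) t := by
  set G : ℕ → ℝ → ℝ := fun n s => if 0 ≤ s then g n s else g n 0 + s * g' n 0 with hG
  set G' : ℕ → ℝ → ℝ := fun n s => if 0 ≤ s then g' n s else g' n 0 with hG'
  have hder : ∀ n s, HasDerivAt (G n) (G' n s) s := by
    intro n s
    rcases lt_trichotomy s 0 with h | h | h
    · have e : G' n s = g' n 0 := by simp [hG', not_le.2 h]
      rw [e]
      have d : HasDerivAt (fun r : ℝ => g n 0 + r * g' n 0) (g' n 0) s := by
        simpa using ((hasDerivAt_id s).mul_const (g' n 0)).const_add (g n 0)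
      refine d.congr_of_eventuallyEq ?_
      filter_upwards [Iio_mem_nhds h] with r hr
      simp [hG, not_le.2 (show r < 0 from hr)]
    · subst h
      have e : G' n 0 = g' n 0 := by simp [hG']
      rw [e]
      have d1 : HasDerivWithinAt (G n) (g' n 0) (Ici 0) 0 := by
        refine (hg n 0 le_rfl).congr ?_ ?_
        · intro r hr; simp [hG, show (0 : ℝ) ≤ r from hr]
        · simp [hG]
      have d2 : HasDerivWithinAt (G n) (g' n 0) (Iic 0) 0 := by
        have d : HasDerivWithinAt (fun r : ℝ => g n 0 + r * g' n 0) (g' n 0) (Iic 0) 0 := by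
          simpa using (((hasDerivAt_id (0 : ℝ)).mul_const (g' n 0)).const_add (g n 0)).hasDerivWithinAt
        refine d.congr ?_ ?_
        · intro r hr
          rcases eq_or_lt_of_le (show r ≤ 0 from hr) with h | h
          · subst h; simp [hG]
          · simp [hG, not_le.2 h]
        · simp [hG]
      have := d1.union d2
      rwa [Ici_union_Iic, hasDerivWithinAt_univ] at this
    · have e : G' n s = g' n s := by simp [hG', h.le]
      rw [e]
      have d := (hg n s h.le).hasDerivAt (Ici_mem_nhds h)
      refine d.congr_of_eventuallyEq ?_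
      filter_upwards [Ioi_mem_nhds h] with r hr
      simp [hG, (show (0 : ℝ) < r from hr).le]
  have key := hasDerivAt_tsum_of_isPreconnected (g := G) (g' := G') (u := u) (t := Iio T)
    (y₀ := 0) (y := t) hu isOpen_Iio isPreconnected_Iio (fun n s _ => hder n s)
    (fun n s hs => by
      by_cases h : 0 ≤ s
      · simp only [hG', if_pos h]; exact hb n s h (le_of_lt hs)
      · simp only [hG', if_neg h]
        exact hb n 0 le_rfl (ht.trans htT.le))
    (ht.trans_lt htT) (by simpa [hG] using h0) htT
  have e1 : (∑' n, G' n t) = ∑' n, g' n t := by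
    refine tsum_congr (fun n => ?_)
    simp [hG', ht]
  rw [e1] at key
  refine key.hasDerivWithinAt.congr ?_ ?_
  · intro s hs
    refine tsum_congr (fun n => ?_)
    simp [hG, show (0 : ℝ) ≤ s from hs]
  · refine tsum_congr (fun n => ?_)
    simp [hG, ht]

theorem exl (hHN : HNStmt) : EXLStmt := by
  intro a b ξ hE y
  have hb0 : 0 < b := by
    have := hE.2 0
    linarith [hE.1]
  have H := hHN a b ξ hE y
  have hnn : ∀ n t x, 0 ≤ t → 0 ≤ hn ξ y n t x := fun n t x ht => (H n).2.1 t x ht
  have hle : ∀ n t x, 0 ≤ t → hn ξ y n t x ≤ Real.exp (b * t) * (t ^ n / n.factorial) := by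
    intro n t x ht
    have := (H n).2.2.1 t x ht
    rwa [mul_div_assoc] at this
  have hsc := fun n => (H n).2.2.2.1
  have hd := fun n => (H n).2.2.2.2
  have sExp : ∀ c t : ℝ, Summable (fun n : ℕ => c * (t ^ n / n.factorial)) := fun c t =>
    (Real.summable_pow_div_factorial t).mul_left c
  have sS : ∀ t x, 0 ≤ t → Summable (fun n => hn ξ y n t x) := fun t x ht =>
    Summable.of_nonneg_of_le (fun n => hnn n t x ht) (fun n => hle n t x ht) (sExp _ t)
  have tExp : ∀ c t : ℝ, ∑' n : ℕ, c * (t ^ n / n.factorial) = c * Real.exp t := by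
    intro c t
    rw [tsum_mul_left, Real.exp_eq_exp_ℝ, NormedSpace.exp_eq_tsum_div]
  have h0lt : ∀ t x, x < y → hn ξ y 0 t x = 0 := by
    intro t x hx
    simp [hn, not_le.2 hx]
  have h0z : ∀ n x, x < y → hn ξ y n 0 x = 0 := by
    intro n x hx
    cases n with
    | zero => exact h0lt 0 x hx
    | succ n => simp [hn, not_le.2 hx]
  refine ⟨fun t x => ∑' n, hn ξ y n t x, ?_, ?_, ?_, ?_, ?_, ?_⟩
  · intro t x ht
    exact tsum_nonneg (fun n => hnn n t x ht)
  · intro T
    refine ⟨Real.exp (b * T) * Real.exp T, fun t x ht htT => ?_⟩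
    calc ∑' n, hn ξ y n t x ≤ ∑' n : ℕ, Real.exp (b * t) * (t ^ n / n.factorial) :=
          (sS t x ht).tsum_le_tsum (fun n => hle n t x ht) (sExp _ t)
      _ = Real.exp (b * t) * Real.exp t := tExp _ _
      _ ≤ Real.exp (b * T) * Real.exp T := by
          apply mul_le_mul _ (Real.exp_le_exp.2 htT) (Real.exp_pos _).le (Real.exp_pos _).le
          exact Real.exp_le_exp.2 (mul_le_mul_of_nonneg_left htT hb0.le)
  · intro x hx
    simp [h0z _ x hx]
  · intro t x ht hx
    have : ∀ n, n ≠ 0 → hn ξ y n t x = 0 := by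
      intro n hn0
      obtain ⟨m, rfl⟩ := Nat.exists_eq_succ_of_ne_zero hn0
      simp [hn, hx]
    rw [tsum_eq_single 0 this]
    simp [hn, hx]
  · intro t x ht hx
    set T := t + 1 with hT
    set g : ℕ → ℝ → ℝ := fun n s => hn ξ y (n + 1) s x with hg
    set g' : ℕ → ℝ → ℝ := fun n s => (hn ξ y n s (x + 1) + hn ξ y n s (x - 1)) / 2
      - (1 - ξ x) * hn ξ y (n + 1) s x with hg'
    have hξ := hE.2 x
    have hmono : ∀ (n : ℕ) (s : ℝ), 0 ≤ s → s ≤ T →
        Real.exp (b * s) * (s ^ n / n.factorial) ≤ Real.exp (b * T) * (T ^ n / n.factorial) := by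
      intro n s h0 h1
      have hTn : 0 ≤ T ^ n / (n.factorial : ℝ) := by
        have : 0 ≤ T := h0.trans h1
        positivity
      have h2 : s ^ n / (n.factorial : ℝ) ≤ T ^ n / (n.factorial : ℝ) := by
        gcongr
      have h3 : Real.exp (b * s) ≤ Real.exp (b * T) :=
        Real.exp_le_exp.2 (mul_le_mul_of_nonneg_left h1 hb0.le)
      have h4 : 0 ≤ s ^ n / (n.factorial : ℝ) := by positivity
      exact mul_le_mul h3 h2 h4 (Real.exp_pos _).le
    have main := hasDeriv_tsum_Ici g g'
      (fun n => Real.exp (b * T) * (T ^ n / n.factorial)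
        + (1 + b) * (Real.exp (b * T) * (T ^ (n + 1) / (n + 1).factorial))) T
      ((sExp _ T).add (((summable_nat_add_iff 1).2 (sExp (Real.exp (b * T)) T)).mul_left (1 + b)))
      (fun n s hs => hd n s x hs hx)
      (fun n s h0 h1 => by
        have a1 := hnn n s (x + 1) h0
        have a2 := hnn n s (x - 1) h0
        have a3 := hnn (n + 1) s x h0
        have b1 := (hle n s (x + 1) h0).trans (hmono n s h0 h1)
        have b2 := (hle n s (x - 1) h0).trans (hmono n s h0 h1)
        have b3 := (hle (n + 1) s x h0).trans (hmono (n + 1) s h0 h1)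
        simp only [hg', Real.norm_eq_abs]
        have c1 : |(1 - ξ x) * hn ξ y (n + 1) s x| ≤
            (1 + b) * (Real.exp (b * T) * (T ^ (n + 1) / (n + 1).factorial)) := by
          rw [abs_mul, abs_of_nonneg a3]
          have : |1 - ξ x| ≤ 1 + b := by
            rw [abs_le]
            constructor <;> linarith [hE.1]
          exact mul_le_mul this b3 a3 (by linarith)
        have c2 : |(hn ξ y n s (x + 1) + hn ξ y n s (x - 1)) / 2| ≤
            Real.exp (b * T) * (T ^ n / n.factorial) := by
          rw [abs_of_nonneg (by linarith)]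
          linarith
        exact (abs_sub _ _).trans (add_le_add c2 c1))
      (by simpa [hg, h0z _ x hx] using summable_zero)
      t ht (by rw [hT]; linarith)
    have e0 : ∀ s, 0 ≤ s → ∑' n, hn ξ y n s x = ∑' n, g n s := by
      intro s hs
      rw [(sS s x hs).tsum_eq_zero_add, h0lt s x hx, zero_add]
    have e1 : ∑' n, g' n t = lap (fun x => ∑' n, hn ξ y n t x) x + ξ x * ∑' n, hn ξ y n t x := by
      have s1 := sS t (x + 1) ht
      have s2 := sS t (x - 1) ht
      have s3 : Summable (fun n => hn ξ y (n + 1) t x) := (summable_nat_add_iff 1).2 (sS t x ht)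
      have : ∑' n, g' n t = ((∑' n, hn ξ y n t (x + 1)) + ∑' n, hn ξ y n t (x - 1)) / 2
          - (1 - ξ x) * ∑' n, hn ξ y (n + 1) t x := by
        simp only [hg']
        rw [((s1.add s2).div_const 2).tsum_sub (s3.mul_left (1 - ξ x)), tsum_div_const,
          s1.tsum_add s2, tsum_mul_left]
      rw [this]
      have e2 := e0 t ht
      simp only [hg] at e2
      rw [← e2]
      unfold lap
      ring
    rw [← e1]
    refine main.congr (fun s hs => e0 s hs) (e0 t ht)
  · intro N A θ t x hA hθ0 hθ1 ht hx
    have hθt : 0 ≤ θ * t := mul_nonneg hθ0.le ht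
    set c := θ ^ N * Real.exp (-(b * (1 - θ) * t)) with hc
    have hc0 : 0 < c := by positivity
    have hA0 : 0 < A := by linarith
    have e : ∑' n : ℕ, c * (hn ξ y n t x - Real.exp (b * t) / A ^ N * ((A * t) ^ n / n.factorial))
        = c * ((∑' n, hn ξ y n t x) - Real.exp ((b + A) * t) / A ^ N) := by
      rw [tsum_mul_left, (sS t x ht).tsum_sub (sExp _ _), tExp]
      congr 2
      rw [add_mul, Real.exp_add]
      ring
    have hle2 : ∀ n, c * (hn ξ y n t x - Real.exp (b * t) / A ^ N * ((A * t) ^ n / n.factorial))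
        ≤ hn ξ y n (θ * t) x := by
      intro n
      have hcn : 0 ≤ Real.exp (b * t) / A ^ N * ((A * t) ^ n / n.factorial) := by positivity
      rcases le_or_gt n N with h | h
      · have h1 := hsc n θ t x hθ0 hθ1 ht
        have h2 : θ ^ N ≤ θ ^ n := pow_le_pow_of_le_one hθ0.le hθ1 h
        have h3 : c * hn ξ y n t x ≤ θ ^ n * Real.exp (-(b * (1 - θ) * t)) * hn ξ y n t x := by
          rw [hc]
          exact mul_le_mul_of_nonneg_right
            (mul_le_mul_of_nonneg_right h2 (Real.exp_pos _).le) (hnn n t x ht)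
        nlinarith [mul_nonneg hc0.le hcn]
      · have h1 := hle n t x ht
        have h2 : Real.exp (b * t) * (t ^ n / n.factorial)
            ≤ Real.exp (b * t) / A ^ N * ((A * t) ^ n / n.factorial) := by
          rw [mul_pow]
          have h3 : A ^ N ≤ A ^ n := pow_le_pow_right₀ hA h.le
          have h4 : Real.exp (b * t) / A ^ N * (A ^ n * t ^ n / n.factorial)
              = (A ^ n / A ^ N) * (Real.exp (b * t) * (t ^ n / n.factorial)) := by
            field_simp
          rw [h4]
          have h5 : 1 ≤ A ^ n / A ^ N := by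
            rw [le_div_iff₀ (by positivity)]; linarith
          have h6 : 0 ≤ Real.exp (b * t) * (t ^ n / n.factorial) := by positivity
          nlinarith
        have h3 : hn ξ y n t x - Real.exp (b * t) / A ^ N * ((A * t) ^ n / n.factorial) ≤ 0 := by
          linarith
        exact (mul_nonpos_of_nonneg_of_nonpos hc0.le h3).trans (hnn n _ x hθt)
    change c * ((∑' n, hn ξ y n t x) - Real.exp ((b + A) * t) / A ^ N) ≤ ∑' n, hn ξ y n (θ * t) x
    rw [← e]
    exact (((sS t x ht).sub (sExp _ _)).mul_left c).tsum_le_tsum hle2 (sS _ x hθt)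

end BRW.H13
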